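import Pool.Agent.H18.It.Lead

/-!
# The joint theorems
-/

set_option autoImplicit false
set_option linter.unusedSectionVars false

open PowerSeries Set

namespace Pool.Agent.H18.It

open Pool.Agent.N902.EW Pool.Agent.H18.Bes

/-- the real numbers `b ≥ 0` of the base field with algebraic `e^b` which map `S` to `S` -/
def VV (S : Set Qb) : Set ℝ := {b | 0 ≤ b ∧ (b : ℂ) ∈ EL S ∧ IsAlgebraic ℚ (Complex.exp b) ∧
  ∀ c ∈ S, ∃ d ∈ S, io d = Complex.exp b * io c}

section

variable {S : Set Qb}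

/-- the number `e^b` -/
noncomputable def eb {b : ℝ} (hb : b ∈ VV S) : Qb := ⟨Complex.exp b, mem_algebraicClosure_iff'.2 hb.2.2.1.isIntegral⟩

theorem io_eb {b : ℝ} (hb : b ∈ VV S) : io (eb hb) = Complex.exp b := rfl

theorem eb_mem {b : ℝ} (hb : b ∈ VV S) : ∀ c ∈ S, eb hb * c ∈ S := by
  intro c hc
  obtain ⟨d, hd, h⟩ := hb.2.2.2 c hc
  have : eb hb * c = d := io.injective (by rw [map_mul, io_eb, h])
  rw [this]; exact hd

theorem eb_ne {b : ℝ} (hb : b ∈ VV S) : eb hb ≠ 0 := by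
  intro h
  have := congrArg io h
  rw [io_eb, map_zero] at this
  exact Complex.exp_ne_zero _ this

open Classical in
/-- the numbers -/
noncomputable def NN (b : ℝ) (w : List Qb) : ℂ := if b = 0 then uv w else JJ (w.map io) b

/-- the weight of a letter -/
noncomputable def om (A : ℝ) (c : Qb) : ℝ := if c = 0 then 0 else A + Real.log ‖io c‖

theorem om_zero (A : ℝ) : om A 0 = 0 := if_pos rfl

theorem om_mul (A : ℝ) {b : ℝ} (hb : b ∈ VV S) {c : Qb} (hc : c ≠ 0) : om A (eb hb * c) = om A c + b := by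
  have hc' : ‖io c‖ ≠ 0 := by rwa [norm_ne_zero_iff, map_ne_zero]
  rw [om, om, if_neg (mul_ne_zero (eb_ne hb) hc), if_neg hc, map_mul, norm_mul, io_eb, Complex.norm_exp,
    Complex.ofReal_re, Real.log_mul (Real.exp_ne_zero _) hc', Real.log_exp]
  ring

theorem exists_A (L : Finset Qb) : ∃ A : ℝ, ∀ c ∈ L, c ≠ 0 → 0 < om A c := by
  classical
  obtain ⟨A, hA⟩ := (L.image fun c => -Real.log ‖io c‖).bddAbove
  refine ⟨A + 1, fun c hc hc0 => ?_⟩
  have := hA (Finset.mem_coe.2 (Finset.mem_image_of_mem (fun c => -Real.log ‖io c‖) hc))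
  rw [om, if_neg hc0]
  linarith

theorem lead_NN {A : ℝ} {b : ℝ} (hb : b ∈ VV S) {w : List Qb} (hw : AL S w) (hpos : ∀ c ∈ w, c ≠ 0 → 0 < om A c) :
    Lead S (om A) (wt (om A) (sc (eb hb) w)) (NN b w) (uv (sc (eb hb) w)) := by
  refine ⟨uv_mem _ (sc_AL (eb_ne hb) (eb_mem hb) hw), ?_⟩
  by_cases h : b = 0
  · have h1 : eb hb = 1 := by
      apply Subtype.ext
      show Complex.exp b = 1
      rw [h, Complex.ofReal_zero, Complex.exp_zero]
    have h2 : sc (eb hb) w = w := by
      rw [h1, sc]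
      simp
    rw [NN, if_pos h, h2, sub_self]
    exact Submodule.zero_mem _
  · have hb0 : 0 < b := lt_of_le_of_ne hb.1 (Ne.symm h)
    obtain ⟨m, hm, hJ⟩ := main (a := eb hb) hb0 (om_zero A) (fun c hc => om_mul A hb hc) w hw fun c hc hc0 => by
      rw [om_mul A hb hc0]
      have := hpos c hc hc0
      linarith
    rw [NN, if_neg h, hJ, hw_at (eb_ne hb) (io_eb hb), add_sub_cancel_left]
    exact MM_at (eb_ne hb) (eb_mem hb) (io_eb hb) hb.2.1 hm

theorem wt_pos {A : ℝ} {b : ℝ} (hb : b ∈ VV S) {w : List Qb} (hw : Adm w) (hne : w ≠ [])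
    (hpos : ∀ c ∈ w, c ≠ 0 → 0 < om A c) : 0 < wt (om A) (sc (eb hb) w) := by
  have hnn : ∀ v : List Qb, (∀ c ∈ v, c ≠ 0 → 0 < om A c) → 0 ≤ wt (om A) (sc (eb hb) v) := by
    intro v
    induction v with
    | nil => intro _; exact le_rfl
    | cons c v ih =>
      intro h
      have h1 := ih fun d hd => h d (List.mem_cons_of_mem _ hd)
      rw [sc_cons, wt_cons]
      by_cases hc : c = 0
      · rw [hc, mul_zero, om_zero]; linarith
      · rw [om_mul A hb hc]
        have := h c (by simp) hc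
        have := hb.1
        linarith
  induction w with
  | nil => exact absurd rfl hne
  | cons c v ih =>
    rw [sc_cons, wt_cons]
    by_cases hc : c = 0
    · have hv : v ≠ [] := fun h => hw.2 h hc
      have := ih hw.1 hv fun d hd => hpos d (List.mem_cons_of_mem _ hd)
      rw [hc, mul_zero, om_zero]
      linarith
    · rw [om_mul A hb hc]
      have h1 := hnn v fun d hd => hpos d (List.mem_cons_of_mem _ hd)
      have := hpos c (by simp) hc
      have := hb.1
      linarith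

section

variable {ι : Type*} (b : ι → ℝ) (hb : ∀ i, b i ∈ VV S) (w : ι → List Qb) (hw : ∀ i, AL S (w i))
  (hinj : Function.Injective fun i => ((w i).map io).map fun c => Complex.exp (b i) * c)

include hb hw hinj

theorem sc_inj : Function.Injective fun i => (⟨sc (eb (hb i)) (w i), sc_AL (eb_ne (hb i)) (eb_mem (hb i)) (hw i)⟩ : {w : List Qb // AL S w}) := by
  intro i j h
  have h1 : sc (eb (hb i)) (w i) = sc (eb (hb j)) (w j) := congrArg Subtype.val h
  refine hinj ?_
  have h2 := congrArg (List.map io) h1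
  simp only [sc, List.map_map] at h2 ⊢
  have e : ∀ k, ((fun c => Complex.exp (b k) * c) ∘ ⇑io) = (⇑io ∘ fun c => eb (hb k) * c) := by
    intro k
    funext c
    rw [Function.comp_apply, Function.comp_apply, map_mul, io_eb]
  rw [e, e]
  exact h2

theorem li_uv' : LinearIndependent (EL S) fun i => uv (sc (eb (hb i)) (w i)) := by
  have h1 := (LI_uv S).comp (fun i => (⟨sc (eb (hb i)) (w i), sc_AL (eb_ne (hb i)) (eb_mem (hb i)) (hw i)⟩ : {w : List Qb // AL S w}))
    (sc_inj b hb w hw hinj)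
  have e : ((fun w : {w : List Qb // AL S w} => uv w.1) ∘
      fun i => (⟨sc (eb (hb i)) (w i), sc_AL (eb_ne (hb i)) (eb_mem (hb i)) (hw i)⟩ : {w : List Qb // AL S w})) =
      fun i => uv (sc (eb (hb i)) (w i)) := rfl
  rw [e] at h1
  exact h1

/-- all the numbers are linearly independent -/
theorem li_NN : LinearIndependent (EL S) fun i => NN (b i) (w i) := by
  classical
  refine li_lead (li_uv' b hb w hw hinj) fun s => ?_
  obtain ⟨A, hA⟩ := exists_A (s.biUnion fun i => (w i).toFinset)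
  exact ⟨om A, fun i => wt (om A) (sc (eb (hb i)) (w i)), fun i hi => lead_NN (hb i) (hw i) fun c hc =>
    hA c (Finset.mem_biUnion.2 ⟨i, hi, List.mem_toFinset.2 hc⟩)⟩

/-- all combinations of the numbers which are not constant are transcendental -/
theorem tr_NN (s : Finset ι) (g : ι → EL S) (i1 : ι) (hi1 : i1 ∈ s) (hg1 : g i1 ≠ 0) (hne : w i1 ≠ []) :
    Transcendental (EL S) (∑ i ∈ s, g i • NN (b i) (w i)) := by
  classical
  obtain ⟨A, hA⟩ := exists_A (s.biUnion fun i => (w i).toFinset)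
  have hpos : ∀ i ∈ s, ∀ c ∈ w i, c ≠ 0 → 0 < om A c := fun i hi c hc =>
    hA c (Finset.mem_biUnion.2 ⟨i, hi, List.mem_toFinset.2 hc⟩)
  obtain ⟨i0, hi0, hmax⟩ := Finset.exists_max_image (s.filter fun i => g i ≠ 0)
    (fun i => wt (om A) (sc (eb (hb i)) (w i))) ⟨i1, Finset.mem_filter.2 ⟨hi1, hg1⟩⟩
  rw [Finset.mem_filter] at hi0
  have h1 := Lead.sum s (fun i => wt (om A) (sc (eb (hb i)) (w i))) (fun i => NN (b i) (w i))
    (fun i => uv (sc (eb (hb i)) (w i))) (fun i hi => lead_NN (hb i) (hw i) (hpos i hi)) g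
    (Θ := wt (om A) (sc (eb (hb i0)) (w i0))) fun i hi hg => hmax i (Finset.mem_filter.2 ⟨hi, hg⟩)
  have h2 : 0 < wt (om A) (sc (eb (hb i0)) (w i0)) :=
    (wt_pos (hb i1) (hw i1).1 hne (hpos i1 hi1)).trans_le (hmax i1 (Finset.mem_filter.2 ⟨hi1, hg1⟩))
  refine tr_lead h2 h1 fun h => ?_
  exact hi0.2 (linearIndependent_iff'.1 (li_uv' b hb w hw hinj) _ g h i0 (Finset.mem_filter.2 ⟨hi0.1, rfl⟩))

end

end

/-- the numbers of depth one are algebraically independent -/
theorem ai_NN {S : Set Qb} (hS : ∀ c ∈ S, c ≠ 0) {ι : Type*} (b : ι → ℝ) (hb : ∀ i, b i ∈ VV S) (c : ι → Qb) (hc : ∀ i, c i ∈ S)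
    (hinj : Function.Injective fun i => Complex.exp (b i) * io (c i)) :
    AlgebraicIndependent (EL S) fun p : ι × ℕ => NN (b p.1) (zs (c p.1) p.2) := by
  classical
  have hAL : ∀ (i : ι) (m : ℕ), AL S (zs (c i) m) := fun i m => ⟨adm_zs (hS _ (hc i)) m, fun d hd => by
    rcases mem_zs hd with h | h
    · exact Or.inl h
    · exact Or.inr (h ▸ hc i)⟩
  have hsc : ∀ (a x : Qb) (m : ℕ), sc a (zs x m) = zs (a * x) m := by
    intro a x m
    induction m with
    | zero => rfl
    | succ m ih =>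
      show sc a (0 :: zs x m) = 0 :: zs (a * x) m
      rw [sc_cons, mul_zero, ih]
  let f : ι × ℕ → S × ℕ := fun p => (⟨eb (hb p.1) * c p.1, eb_mem (hb p.1) _ (hc p.1)⟩, p.2)
  have hf : Function.Injective f := by
    rintro ⟨i, k⟩ ⟨j, l⟩ h
    have h1 : eb (hb i) * c i = eb (hb j) * c j := congrArg (fun z => z.1.1) h
    have h2 : k = l := congrArg (fun z => z.2) h
    have h3 := congrArg io h1
    rw [map_mul, map_mul, io_eb, io_eb] at h3
    rw [hinj h3, h2]
  have h1 := (AI_zs hS).comp f hf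
  refine ai_lead h1 fun s => ?_
  obtain ⟨A, hA⟩ := exists_A (s.biUnion fun p => (zs (c p.1) p.2).toFinset)
  refine ⟨om A, fun p => wt (om A) (sc (eb (hb p.1)) (zs (c p.1) p.2)), fun p hp => ?_⟩
  have h2 := lead_NN (A := A) (hb p.1) (hAL p.1 p.2) fun d hd =>
    hA d (Finset.mem_biUnion.2 ⟨p, hp, List.mem_toFinset.2 hd⟩)
  have e : (((fun p : S × ℕ => uv (zs p.1.1 p.2)) ∘ f) p) = uv (sc (eb (hb p.1)) (zs (c p.1) p.2)) := by
    rw [Function.comp_apply, hsc]
  rw [e]
  exact h2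

end Pool.Agent.H18.It
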