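import Pool.Agent.H18.L.N902.EW.Ei

/-!
# The values of the words with letters in a set are linearly independent over the field of the other words
-/

set_option autoImplicit false
set_option linter.unusedSectionVars false

open PowerSeries Set

namespace Pool.Agent.H18.It

open Pool.Agent.N902.EW

/-- the value of a word -/
noncomputable def uv (w : List Qb) : ℂ := evk io (U w)

theorem evA_mk0 (w : List Qb) (h : Adm w) : evA io (mk 0 w h) = uv w := by
  rw [evA_mk, evk_ex_zero, one_mul, uv]

/-- the generators of the base field -/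
def gL (S : Set Qb) : Set ℂ := GE ∪ {z | ∃ w : List Qb, Adm w ∧ (∀ c ∈ w, c ∉ S) ∧ z = uv w}

/-- the base field -/
noncomputable def EL (S : Set Qb) : IntermediateField ℚ ℂ := IntermediateField.adjoin ℚ (gL S)

/-- the admissible words with the letters in `S` and `0` -/
def AL (S : Set Qb) (w : List Qb) : Prop := Adm w ∧ ∀ c ∈ w, c = 0 ∨ c ∈ S

theorem AL.nil (S : Set Qb) : AL S [] := ⟨trivial, fun c hc => absurd hc (by simp)⟩

theorem AL.tail {S : Set Qb} {c : Qb} {v : List Qb} (h : AL S (c :: v)) : AL S v :=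
  ⟨h.1.1, fun d hd => h.2 d (List.mem_cons_of_mem _ hd)⟩

theorem AL.cons_zero {S : Set Qb} {v : List Qb} (h : AL S v) (hv : v ≠ []) : AL S (0 :: v) :=
  ⟨adm_cons h.1 hv, fun d hd => by
    rcases List.mem_cons.1 hd with h' | h'
    · exact Or.inl h'
    · exact h.2 d h'⟩

theorem AL.cons {S : Set Qb} {c : Qb} {v : List Qb} (h : AL S v) (hc : c ∈ S) (hc0 : c ≠ 0) : AL S (c :: v) :=
  ⟨⟨h.1, fun _ => hc0⟩, fun d hd => by
    rcases List.mem_cons.1 hd with h' | h'
    · exact Or.inr (h' ▸ hc)
    · exact h.2 d h'⟩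

theorem killed_GL {S : Set Qb} {z : ℂ} (hz : z ∈ gL S) :
    ∃ f : AA Qb, evA io f = z ∧ ∀ x ∈ S, ∀ n : ℕ, Ek x n f = 0 := by
  rcases hz with hz | ⟨w, hw, hS, rfl⟩
  · obtain ⟨f, hf, hf'⟩ := killed_GE hz
    exact ⟨f, hf, fun x _ n => hf' x n⟩
  · exact ⟨mk 0 w hw, evA_mk0 w hw, fun x hx n => Ek_NS_self x n (mk_mem_NS _ _ fun h => hS x h hx)⟩

theorem killed_adj {S : Set Qb} {z : ℂ} (hz : z ∈ Algebra.adjoin ℚ (gL S)) :
    ∃ f : AA Qb, evA io f = z ∧ ∀ x ∈ S, ∀ n : ℕ, Ek x n f = 0 := by
  induction hz using Algebra.adjoin_induction with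
  | mem z hz => exact killed_GL hz
  | algebraMap r =>
    refine ⟨algebraMap Qb (AA Qb) (algebraMap ℚ Qb r), ?_, fun x _ n => Derivation.map_algebraMap _ _⟩
    rw [evA_algebraMap]
    simp
  | add x y _ _ hx hy =>
    obtain ⟨f, hf, hf'⟩ := hx
    obtain ⟨g, hg, hg'⟩ := hy
    exact ⟨f + g, by rw [map_add, hf, hg], fun x hx n => by rw [map_add, hf' x hx n, hg' x hx n, add_zero]⟩
  | mul x y _ _ hx hy =>
    obtain ⟨f, hf, hf'⟩ := hx
    obtain ⟨g, hg, hg'⟩ := hy
    exact ⟨f * g, by rw [map_mul, hf, hg], fun x hx n => by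
      rw [Derivation.leibniz, hf' x hx n, hg' x hx n, smul_zero, smul_zero, add_zero]⟩

open Classical in
/-- the element of a word -/
noncomputable def mkk (w : List Qb) : AA Qb := if h : Adm w then mk 0 w h else 0

theorem mkk_eq {w : List Qb} (h : Adm w) : mkk w = mk 0 w h := dif_pos h

theorem mkk_nil_ne : mkk [] ≠ 0 := by
  rw [mkk_eq adm_nil, ← bA_apply (K := Qb) ⟨(0, []), adm_nil⟩]
  exact (bA Qb).ne_zero _

theorem Ek_nil (x : Qb) (n : ℕ) : Ek x n (mkk []) = 0 := by
  rw [mkk_eq adm_nil]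
  exact Ek_NS_self x n (mk_mem_NS _ _ (by simp))

/-- a word with leading zeros -/
noncomputable def lz (m : ℕ) (c : Qb) (v : List Qb) : List Qb := List.replicate m 0 ++ c :: v

theorem lz_zero (c : Qb) (v : List Qb) : lz 0 c v = c :: v := rfl

theorem lz_succ (m : ℕ) (c : Qb) (v : List Qb) : lz (m + 1) c v = 0 :: lz m c v := by
  rw [lz, lz, List.replicate_succ, List.cons_append]

theorem lz_ne (m : ℕ) (c : Qb) (v : List Qb) : lz m c v ≠ [] := by
  cases m with
  | zero => simp [lz]
  | succ m => simp [lz_succ]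

theorem lz_tail {m : ℕ} {c : Qb} {v : List Qb} (h : Adm (lz m c v)) : Adm v := by
  induction m with
  | zero => exact h.1
  | succ m ih => rw [lz_succ] at h; exact ih h.1

theorem exists_lz {w : List Qb} (h : Adm w) (hne : w ≠ []) : ∃ (m : ℕ) (c : Qb) (v : List Qb), c ≠ 0 ∧ w = lz m c v := by
  induction w with
  | nil => exact absurd rfl hne
  | cons d v ih =>
    by_cases hd : d = 0
    · have hv : v ≠ [] := fun h' => h.2 h' hd
      obtain ⟨m, c, u, hc, rfl⟩ := ih h.1 hv
      exact ⟨m + 1, c, u, hc, by rw [lz_succ, hd]⟩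
    · exact ⟨0, d, v, hd, rfl⟩

theorem DA_mkk_lz {m : ℕ} {c : Qb} {v : List Qb} (h : Adm (lz (m + 1) c v)) : DA 0 (mkk (lz (m + 1) c v)) = mkk (lz m c v) := by
  rw [lz_succ] at h ⊢
  rw [mkk_eq h, DA_self, mkk_eq h.1]

theorem Ek_lt {x : Qb} (hx : x ≠ 0) (k : ℕ) : ∀ (m : ℕ) (c : Qb) (v : List Qb), Adm (lz m c v) → k < m →
    Ek x k (mkk (lz m c v)) = 0 := by
  induction k with
  | zero =>
    intro m c v h hm
    obtain ⟨m, rfl⟩ : ∃ m', m = m' + 1 := ⟨m - 1, by omega⟩
    rw [lz_succ] at h ⊢
    rw [mkk_eq h, Ek_zero]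
    exact DA_ne (Ne.symm hx) _ _ _
  | succ k ih =>
    intro m c v h hm
    obtain ⟨m, rfl⟩ : ∃ m', m = m' + 1 := ⟨m - 1, by omega⟩
    rw [Ek_succ, ih (m + 1) c v h (by omega), map_zero, DA_mkk_lz h, zero_sub, neg_eq_zero]
    rw [lz_succ] at h
    exact ih m c v h.1 (by omega)

open Classical in
theorem Ek_eq {x : Qb} (hx : x ≠ 0) (k : ℕ) : ∀ (c : Qb) (v : List Qb), Adm (lz k c v) →
    Ek x k (mkk (lz k c v)) = if c = x then ((-1) ^ k : Qb) • mkk v else 0 := by
  induction k with
  | zero =>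
    intro c v h
    rw [lz_zero] at h ⊢
    rw [mkk_eq h, Ek_zero, mkk_eq h.1]
    by_cases hcx : c = x
    · subst hcx
      rw [if_pos rfl, pow_zero, one_smul, DA_self]
    · rw [if_neg hcx, DA_ne hcx]
  | succ k ih =>
    intro c v h
    rw [Ek_succ, Ek_lt hx k (k + 1) c v h (by omega), map_zero, DA_mkk_lz h, zero_sub]
    rw [lz_succ] at h
    rw [ih c v h.1]
    split_ifs
    · rw [pow_succ, mul_neg_one, neg_smul]
    · rw [neg_zero]

/-- the independence in the algebra -/
theorem indep {S : Set Qb} (N : ℕ) : ∀ (s : Finset (List Qb)) (f : List Qb → AA Qb), (∀ w ∈ s, AL S w) →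
    (∀ w ∈ s, w.length ≤ N) → (∀ w, ∀ x ∈ S, ∀ n : ℕ, Ek x n (f w) = 0) → ∑ w ∈ s, f w * mkk w = 0 → ∀ w ∈ s, f w = 0 := by
  classical
  induction N with
  | zero =>
    intro s f _ hlen _ hsum w hw
    have hnil : ∀ v ∈ s, v = [] := fun v hv => List.length_eq_zero_iff.1 (Nat.le_zero.1 (hlen v hv))
    have hs : s = {[]} := by
      ext v
      rw [Finset.mem_singleton]
      constructor
      · exact hnil v
      · rintro rfl; rw [← hnil w hw]; exact hw
    rw [hs, Finset.sum_singleton] at hsum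
    rw [hnil w hw]
    exact (mul_eq_zero.1 hsum).resolve_right mkk_nil_ne
  | succ N ih =>
    intro s f hAL hlen hf hsum
    -- the words with leading zeros
    have key : ∀ m : ℕ, ∀ (c : Qb) (v : List Qb), c ≠ 0 → lz m c v ∈ s → f (lz m c v) = 0 := by
      intro m
      induction m using Nat.strong_induction_on with
      | _ m ihm =>
        intro c v hc hmem
        have hcS : c ∈ S := by
          refine ((hAL _ hmem).2 c ?_).resolve_left hc
          rw [lz]; simp
        have h1 := congrArg (Ek c m) hsum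
        rw [map_sum, map_zero] at h1
        have h2 : ∀ w ∈ s, Ek c m (f w * mkk w) = f w * Ek c m (mkk w) := by
          intro w _
          rw [Derivation.leibniz, hf w c hcS m, smul_zero, add_zero, smul_eq_mul]
        rw [Finset.sum_congr rfl h2] at h1
        have hinj : Function.Injective (lz m c) := fun v v' h => by
          rw [lz, lz] at h
          exact (List.cons.inj (List.append_cancel_left h)).2
        have h3 := Finset.sum_preimage (lz m c) s hinj.injOn (fun w => f w * Ek c m (mkk w)) (by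
          intro w hw hran
          by_cases hne : w = []
          · rw [hne, Ek_nil, mul_zero]
          · obtain ⟨m', d, u, hd, rfl⟩ := exists_lz (hAL w hw).1 hne
            rcases lt_trichotomy m' m with h | h | h
            · rw [ihm m' h d u hd hw, zero_mul]
            · subst h
              rw [Ek_eq hc m' d u (hAL _ hw).1, if_neg, mul_zero]
              rintro rfl
              exact hran ⟨u, rfl⟩
            · rw [Ek_lt hc m m' d u (hAL _ hw).1 h, mul_zero])
        rw [h1] at h3
        have h4 : ∀ u ∈ s.preimage (lz m c) hinj.injOn, f (lz m c u) * Ek c m (mkk (lz m c u)) =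
            ((-1) ^ m : Qb) • (f (lz m c u) * mkk u) := by
          intro u hu
          rw [Ek_eq hc m c u (hAL _ (Finset.mem_preimage.1 hu)).1, if_pos rfl, mul_smul_comm]
        rw [Finset.sum_congr rfl h4, ← Finset.smul_sum] at h3
        have h5 := (smul_eq_zero.1 h3).resolve_left (pow_ne_zero _ (by norm_num))
        refine ih (s.preimage (lz m c) hinj.injOn) (fun u => f (lz m c u)) (fun u hu => ?_) (fun u hu => ?_)
          (fun u => hf _) h5 v (Finset.mem_preimage.2 hmem)
        · have h6 := hAL _ (Finset.mem_preimage.1 hu)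
          exact ⟨lz_tail h6.1, fun d hd => h6.2 d (by rw [lz]; simp [hd])⟩
        · have h6 := hlen _ (Finset.mem_preimage.1 hu)
          rw [lz, List.length_append, List.length_cons] at h6
          omega
    intro w hw
    by_cases hne : w = []
    · subst hne
      rw [Finset.sum_eq_single []] at hsum
      · exact (mul_eq_zero.1 hsum).resolve_right mkk_nil_ne
      · intro u hu hne
        obtain ⟨m', d, u, hd, rfl⟩ := exists_lz (hAL u hu).1 hne
        rw [key m' d u hd hu, zero_mul]
      · intro h; exact absurd hw h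
    · obtain ⟨m', d, u, hd, rfl⟩ := exists_lz (hAL w hw).1 hne
      exact key m' d u hd hw

open IntermediateField.algebraAdjoinAdjoin in
/-- the values of the words with the letters in `S` are linearly independent over the base field -/
theorem LI_uv (S : Set Qb) : LinearIndependent (EL S) (fun w : {w : List Qb // AL S w} => uv w.1) := by
  classical
  rw [EL, ← LinearIndependent.iff_fractionRing (R := Algebra.adjoin ℚ (gL S))]
  rw [linearIndependent_iff']
  intro s g hsum w0 hw0
  choose f hf hf' using fun w : {w : List Qb // AL S w} => killed_adj (g w).2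
  let F : List Qb → AA Qb := fun w => if h : AL S w then f ⟨w, h⟩ else 0
  have hF : ∀ w : {w : List Qb // AL S w}, F w.1 = f w := fun w => dif_pos w.2
  have h1 : evA io (∑ w ∈ s, f w * mkk w.1) = 0 := by
    rw [map_sum, ← hsum]
    refine Finset.sum_congr rfl fun w _ => ?_
    rw [map_mul, hf, mkk_eq w.2.1, evA_mk0, Algebra.smul_def]
    rfl
  have h2 : (∑ w ∈ s, f w * mkk w.1) = 0 := evA_injective io (by rw [h1, map_zero])
  have h3 : (∑ w ∈ s.image Subtype.val, F w * mkk w) = 0 := by
    rw [Finset.sum_image Subtype.val_injective.injOn, ← h2]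
    exact Finset.sum_congr rfl fun w _ => by rw [hF]
  have h4 := indep (S := S) ((s.image Subtype.val).sup List.length) (s.image Subtype.val) F (fun w hw => by
      obtain ⟨w', _, rfl⟩ := Finset.mem_image.1 hw
      exact w'.2) (fun w hw => Finset.le_sup (f := List.length) hw) (fun w x hx n => by
      by_cases h : AL S w
      · have : F w = f ⟨w, h⟩ := dif_pos h
        rw [this]
        exact hf' _ x hx n
      · have : F w = 0 := dif_neg h
        rw [this, map_zero]) h3 w0.1 (Finset.mem_image_of_mem _ hw0)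
  rw [hF] at h4
  apply Subtype.ext
  rw [← hf w0, h4, map_zero]
  rfl

/-- the values of depth one are algebraically independent over the base field -/
theorem AI_zs {S : Set Qb} (hS : ∀ c ∈ S, c ≠ 0) : AlgebraicIndependent (EL S) (fun p : S × ℕ => uv (zs p.1.1 p.2)) := by
  have h := ai_general (gL S) (fun p : S × ℕ => mk 0 (zs p.1.1 p.2) (adm_zs (hS _ p.1.2) p.2)) (fun p => Ek p.1.1 p.2)
    (fun z hz => by
      obtain ⟨f, hf, hf'⟩ := killed_GL hz
      exact ⟨f, hf, fun p => hf' p.1.1 p.1.2 p.2⟩) (fun p => ((-1) ^ p.2 : Qb) • mk 0 [] adm_nil) (fun p => smul_nil_ne _)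
    (fun p => by rw [Ek_zs (hS _ p.1.2) p.2 p.2 0 _ adm_nil, if_pos rfl]) (fun p r hpr => by
      by_cases h1 : p.1.1 = r.1.1
      · have h2 : r.2 ≠ p.2 := fun h => hpr (Prod.ext (Subtype.ext h1) h.symm)
        have h3 : mk 0 (zs r.1.1 r.2) (adm_zs (hS _ r.1.2) r.2) = mk 0 (zs p.1.1 r.2) (adm_zs (hS _ p.1.2) r.2) := by
          congr 1
          rw [h1]
        show Ek p.1.1 p.2 (mk 0 (zs r.1.1 r.2) (adm_zs (hS _ r.1.2) r.2)) = 0
        rw [h3, Ek_zs (hS _ p.1.2) p.2 r.2 0 _ adm_nil, if_neg h2]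
      · exact Ek_zs_ne (hS _ p.1.2) h1 _ _ _ _)
  have e : (fun p : S × ℕ => evA io (mk 0 (zs p.1.1 p.2) (adm_zs (hS _ p.1.2) p.2))) = fun p => uv (zs p.1.1 p.2) := by
    funext p
    rw [evA_mk0]
  rw [e] at h
  exact h

end Pool.Agent.H18.It
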