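import Pool.Agent.H18.It.Main

/-!
# Leading terms
-/

set_option autoImplicit false
set_option linter.unusedSectionVars false

open PowerSeries Set

namespace Pool.Agent.H18.It

open Pool.Agent.N902.EW Pool.Agent.H18.Bes

section

variable {S : Set Qb} {ω : Qb → ℝ}

/-- the span of the values of weight at most `θ` -/
noncomputable def Le (S : Set Qb) (ω : Qb → ℝ) (θ : ℝ) : Submodule (EL S) ℂ :=
  Submodule.span (EL S) {z | ∃ w : List Qb, AL S w ∧ wt ω w ≤ θ ∧ z = uv w}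

theorem Vw_le_Le {θ : ℝ} : Vw S ω θ ≤ Le S ω θ := by
  refine Submodule.span_mono ?_
  rintro _ ⟨w, hw, rfl, rfl⟩
  exact ⟨w, hw, le_rfl, rfl⟩

theorem Lo_le_Le {θ : ℝ} : Lo S ω θ ≤ Le S ω θ := by
  refine Submodule.span_mono ?_
  rintro _ ⟨w, hw, h, rfl⟩
  exact ⟨w, hw, h.le, rfl⟩

theorem Le_le_Lo {θ θ' : ℝ} (h : θ < θ') : Le S ω θ ≤ Lo S ω θ' := by
  refine Submodule.span_mono ?_
  rintro _ ⟨w, hw, h1, rfl⟩
  exact ⟨w, hw, h1.trans_lt h, rfl⟩

theorem mul_span {T T' : Set ℂ} {U : Submodule (EL S) ℂ} (H : ∀ s ∈ T, ∀ t ∈ T', s * t ∈ U) {x y : ℂ}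
    (hx : x ∈ Submodule.span (EL S) T) (hy : y ∈ Submodule.span (EL S) T') : x * y ∈ U := by
  refine Submodule.span_induction₂ (p := fun x y _ _ => x * y ∈ U) ?_ ?_ ?_ ?_ ?_ ?_ ?_ hx hy
  · intro s t hs ht; exact H s hs t ht
  · intro y _; rw [zero_mul]; exact Submodule.zero_mem _
  · intro x _; rw [mul_zero]; exact Submodule.zero_mem _
  · intro x y z _ _ _ hx hy; rw [add_mul]; exact Submodule.add_mem _ hx hy
  · intro x y z _ _ _ hx hy; rw [mul_add]; exact Submodule.add_mem _ hx hy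
  · intro c x y _ _ h; rw [smul_mul_assoc]; exact Submodule.smul_mem _ _ h
  · intro c x y _ _ h; rw [mul_smul_comm]; exact Submodule.smul_mem _ _ h

theorem Vw_mul {θ θ' : ℝ} {x y : ℂ} (hx : x ∈ Vw S ω θ) (hy : y ∈ Vw S ω θ') : x * y ∈ Vw S ω (θ + θ') := by
  refine mul_span ?_ hx hy
  rintro _ ⟨u, hu, rfl, rfl⟩ _ ⟨v, hv, rfl, rfl⟩
  exact uv_mul_mem ω hu hv

theorem Lo_mul_Le {θ θ' : ℝ} {x y : ℂ} (hx : x ∈ Lo S ω θ) (hy : y ∈ Le S ω θ') : x * y ∈ Lo S ω (θ + θ') := by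
  refine mul_span ?_ hx hy
  rintro _ ⟨u, hu, h1, rfl⟩ _ ⟨v, hv, h2, rfl⟩
  exact Vw_le (by linarith) (uv_mul_mem ω hu hv)

theorem Vw_inter_Lo {θ : ℝ} {x : ℂ} (h1 : x ∈ Vw S ω θ) (h2 : x ∈ Lo S ω θ) : x = 0 := by
  let s : Set {w : List Qb // AL S w} := {w | wt ω w.1 = θ}
  let t : Set {w : List Qb // AL S w} := {w | wt ω w.1 < θ}
  have hst : Disjoint s t := Set.disjoint_left.2 fun w h h' => by
    have e1 : wt ω w.1 = θ := h
    have e2 : wt ω w.1 < θ := h'
    linarith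
  have h3 := (LI_uv S).disjoint_span_image hst
  refine Submodule.disjoint_def.1 h3 x ?_ ?_
  · refine Submodule.span_mono ?_ h1
    rintro _ ⟨w, hw, h, rfl⟩
    exact ⟨⟨w, hw⟩, h, rfl⟩
  · refine Submodule.span_mono ?_ h2
    rintro _ ⟨w, hw, h, rfl⟩
    exact ⟨⟨w, hw⟩, h, rfl⟩

/-- `y` is the leading term of `x` -/
def Lead (S : Set Qb) (ω : Qb → ℝ) (θ : ℝ) (x y : ℂ) : Prop := y ∈ Vw S ω θ ∧ x - y ∈ Lo S ω θ

theorem Lead.mem_Le {θ : ℝ} {x y : ℂ} (h : Lead S ω θ x y) : x ∈ Le S ω θ := by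
  have := Submodule.add_mem _ (Vw_le_Le h.1) (Lo_le_Le h.2)
  rwa [add_sub_cancel] at this

theorem Lead.mul {θ θ' : ℝ} {x y x' y' : ℂ} (h : Lead S ω θ x y) (h' : Lead S ω θ' x' y') :
    Lead S ω (θ + θ') (x * x') (y * y') := by
  refine ⟨Vw_mul h.1 h'.1, ?_⟩
  have e : x * x' - y * y' = (x - y) * x' + (x' - y') * y := by ring
  rw [e]
  refine Submodule.add_mem _ (Lo_mul_Le h.2 h'.mem_Le) ?_
  rw [add_comm θ]
  exact Lo_mul_Le h'.2 (Vw_le_Le h.1)

theorem Lead.one : Lead S ω 0 1 1 := by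
  refine ⟨?_, by rw [sub_self]; exact Submodule.zero_mem _⟩
  have := uv_mem ω (AL.nil S)
  rwa [uv_nil, wt_nil] at this

theorem Lead.pow {θ : ℝ} {x y : ℂ} (h : Lead S ω θ x y) (n : ℕ) : Lead S ω (n * θ) (x ^ n) (y ^ n) := by
  induction n with
  | zero => rw [Nat.cast_zero, zero_mul, pow_zero, pow_zero]; exact Lead.one
  | succ n ih =>
    have := ih.mul h
    rw [pow_succ, pow_succ]
    convert this using 1
    push_cast
    ring

theorem Lead.prod {ι : Type*} (s : Finset ι) (θ : ι → ℝ) (x y : ι → ℂ) (h : ∀ i ∈ s, Lead S ω (θ i) (x i) (y i)) :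
    Lead S ω (∑ i ∈ s, θ i) (∏ i ∈ s, x i) (∏ i ∈ s, y i) := by
  classical
  induction s using Finset.induction_on with
  | empty => exact Lead.one
  | insert a s ha ih =>
    rw [Finset.sum_insert ha, Finset.prod_insert ha, Finset.prod_insert ha]
    exact (h a (Finset.mem_insert_self _ _)).mul (ih fun i hi => h i (Finset.mem_insert_of_mem hi))

/-- the leading term of a combination -/
theorem Lead.sum {ι : Type*} (s : Finset ι) (θ : ι → ℝ) (x y : ι → ℂ) (h : ∀ i ∈ s, Lead S ω (θ i) (x i) (y i))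
    (g : ι → EL S) {Θ : ℝ} (hΘ : ∀ i ∈ s, g i ≠ 0 → θ i ≤ Θ) [DecidablePred fun i => θ i = Θ] :
    Lead S ω Θ (∑ i ∈ s, g i • x i) (∑ i ∈ s.filter (fun i => θ i = Θ), g i • y i) := by
  refine ⟨Submodule.sum_mem _ fun i hi => ?_, ?_⟩
  · rw [Finset.mem_filter] at hi
    have := (h i hi.1).1
    rw [hi.2] at this
    exact Submodule.smul_mem _ _ this
  · rw [← Finset.sum_filter_add_sum_filter_not s (fun i => θ i = Θ) (fun i => g i • x i), add_sub_right_comm,
      ← Finset.sum_sub_distrib]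
    refine Submodule.add_mem _ (Submodule.sum_mem _ fun i hi => ?_) (Submodule.sum_mem _ fun i hi => ?_)
    · rw [Finset.mem_filter] at hi
      rw [← smul_sub]
      have := (h i hi.1).2
      rw [hi.2] at this
      exact Submodule.smul_mem _ _ this
    · rw [Finset.mem_filter] at hi
      by_cases hg : g i = 0
      · rw [hg, zero_smul]; exact Submodule.zero_mem _
      · exact Submodule.smul_mem _ _ (Le_le_Lo (lt_of_le_of_ne (hΘ i hi.1 hg) hi.2) (h i hi.1).mem_Le)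

end

/-- linear independence of the leading terms -/
theorem li_lead {ι : Type*} {S : Set Qb} {x y : ι → ℂ} (hy : LinearIndependent (EL S) y)
    (H : ∀ s : Finset ι, ∃ (ω : Qb → ℝ) (θ : ι → ℝ), ∀ i ∈ s, Lead S ω (θ i) (x i) (y i)) : LinearIndependent (EL S) x := by
  classical
  rw [linearIndependent_iff']
  intro s g hsum
  by_contra hcon
  push Not at hcon
  obtain ⟨i1, hi1, hg1⟩ := hcon
  obtain ⟨ω, θ, h⟩ := H s
  obtain ⟨i0, hi0, hmax⟩ := Finset.exists_max_image (s.filter fun i => g i ≠ 0) θ ⟨i1, Finset.mem_filter.2 ⟨hi1, hg1⟩⟩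
  rw [Finset.mem_filter] at hi0
  have h1 := Lead.sum s θ x y h g (Θ := θ i0) fun i hi hg => hmax i (Finset.mem_filter.2 ⟨hi, hg⟩)
  rw [hsum] at h1
  have h2 : (∑ i ∈ s.filter (fun i => θ i = θ i0), g i • y i) = 0 := by
    refine Vw_inter_Lo h1.1 ?_
    have := h1.2
    rw [zero_sub] at this
    exact (Submodule.neg_mem_iff _).1 this
  exact hi0.2 (linearIndependent_iff'.1 hy _ g h2 i0 (Finset.mem_filter.2 ⟨hi0.1, rfl⟩))

/-- transcendence from the leading term -/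
theorem tr_lead {S : Set Qb} {ω : Qb → ℝ} {θ : ℝ} (hθ : 0 < θ) {x y : ℂ} (h : Lead S ω θ x y) (hy : y ≠ 0) : Transcendental (EL S) x := by
  rintro ⟨p, hp, hpx⟩
  rw [Polynomial.aeval_eq_sum_range, Finset.sum_range_succ] at hpx
  have h1 : (∑ i ∈ Finset.range p.natDegree, p.coeff i • x ^ i) ∈ Lo S ω (p.natDegree * θ) := by
    refine Submodule.sum_mem _ fun i hi => Submodule.smul_mem _ _ ?_
    refine Le_le_Lo ?_ (h.pow i).mem_Le
    have : (i : ℝ) < p.natDegree := by exact_mod_cast Finset.mem_range.1 hi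
    exact mul_lt_mul_of_pos_right this hθ
  have hc : p.coeff p.natDegree ≠ 0 := by
    rw [Polynomial.coeff_natDegree]
    exact Polynomial.leadingCoeff_ne_zero.2 hp
  have h2 : x ^ p.natDegree ∈ Lo S ω (p.natDegree * θ) := by
    have h3 : p.coeff p.natDegree • x ^ p.natDegree ∈ Lo S ω (p.natDegree * θ) := by
      rw [eq_neg_of_add_eq_zero_right hpx]
      exact Submodule.neg_mem _ h1
    have := Submodule.smul_mem _ (p.coeff p.natDegree)⁻¹ h3
    rwa [smul_smul, inv_mul_cancel₀ hc, one_smul] at this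
  have h4 := h.pow p.natDegree
  have h5 : y ^ p.natDegree ∈ Lo S ω (p.natDegree * θ) := by
    have := Submodule.sub_mem _ h2 h4.2
    rwa [sub_sub_cancel] at this
  exact pow_ne_zero _ hy (Vw_inter_Lo h4.1 h5)

/-- algebraic independence of the leading terms -/
theorem ai_lead {ι : Type*} {S : Set Qb} {x y : ι → ℂ} (hy : AlgebraicIndependent (EL S) y)
    (H : ∀ s : Finset ι, ∃ (ω : Qb → ℝ) (θ : ι → ℝ), ∀ i ∈ s, Lead S ω (θ i) (x i) (y i)) : AlgebraicIndependent (EL S) x := by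
  classical
  have hm : ∀ (z : ι → ℂ) (d : ι →₀ ℕ), MvPolynomial.aeval z (MvPolynomial.monomial d (1 : EL S)) = ∏ i ∈ d.support, z i ^ d i := by
    intro z d
    rw [MvPolynomial.aeval_monomial, map_one, one_mul]
    rfl
  have h1 : LinearIndependent (EL S) (fun d : ι →₀ ℕ => MvPolynomial.aeval y (MvPolynomial.monomial d (1 : EL S))) := by
    have h2 := (MvPolynomial.basisMonomials ι (EL S)).linearIndependent.map' (MvPolynomial.aeval (R := EL S) y).toLinearMap
      (LinearMap.ker_eq_bot.2 hy)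
    have e : ((MvPolynomial.aeval (R := EL S) y).toLinearMap ∘ (MvPolynomial.basisMonomials ι (EL S))) =
        fun d : ι →₀ ℕ => MvPolynomial.aeval y (MvPolynomial.monomial d (1 : EL S)) := by
      funext d
      simp
    rw [e] at h2
    exact h2
  have h2 : LinearIndependent (EL S) (fun d : ι →₀ ℕ => MvPolynomial.aeval x (MvPolynomial.monomial d (1 : EL S))) := by
    refine li_lead h1 fun s => ?_
    obtain ⟨ω, θ, h⟩ := H (s.biUnion fun d => d.support)
    refine ⟨ω, fun d => ∑ i ∈ d.support, d i * θ i, fun d hd => ?_⟩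
    rw [hm, hm]
    exact Lead.prod _ _ _ _ fun i hi => (h i (Finset.mem_biUnion.2 ⟨d, hd, hi⟩)).pow _
  rw [algebraicIndependent_iff]
  intro p hp
  have h3 : p = ∑ d ∈ p.support, p.coeff d • MvPolynomial.monomial d (1 : EL S) := by
    conv_lhs => rw [p.as_sum]
    refine Finset.sum_congr rfl fun d _ => ?_
    rw [MvPolynomial.smul_monomial, smul_eq_mul, mul_one]
  rw [h3, map_sum] at hp
  simp only [map_smul] at hp
  have h4 := linearIndependent_iff'.1 h2 p.support p.coeff hp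
  rw [h3]
  exact Finset.sum_eq_zero fun d hd => by rw [h4 d hd, zero_smul]

end Pool.Agent.H18.It
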