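import Pool.Agent.H18.It.Mod

/-!
# The iterated integrals of the functions `exp (c e^s)`
-/

set_option autoImplicit false
set_option linter.unusedSectionVars false

open PowerSeries Set

namespace Pool.Agent.H18.It

open Pool.Agent.N902.EW Pool.Agent.H18.Bes

/-- the iterated integrals -/
noncomputable def JJ : List ℂ → ℝ → ℂ
  | [], _ => 1
  | c :: v, s => ∫ t in (0 : ℝ)..s, Complex.exp (c * Complex.exp t) * JJ v t

section

variable {S : Set Qb} {ω : Qb → ℝ} {a : Qb}

theorem main {b : ℝ} (hb : 0 < b) (hω0 : ω 0 = 0) (hωa : ∀ c : Qb, c ≠ 0 → ω (a * c) = ω c + b) :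
    ∀ w : List Qb, AL S w → (∀ c ∈ w, c ≠ 0 → 0 < ω (a * c)) →
      ∃ m ∈ MM S ω a (wt ω (sc a w)), ∀ s, JJ (w.map io) s = hw w s + m s := by
  have hle : ∀ w : List Qb, wt ω w ≤ wt ω (sc a w) := by
    intro w
    induction w with
    | nil => exact le_rfl
    | cons c v ih =>
      rw [sc_cons, wt_cons, wt_cons]
      by_cases hc : c = 0
      · rw [hc, mul_zero]; linarith
      · rw [hωa c hc]; linarith
  have hlt : ∀ w : List Qb, Adm w → w ≠ [] → wt ω w < wt ω (sc a w) := by
    intro w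
    induction w with
    | nil => intro _ h; exact absurd rfl h
    | cons c v ih =>
      intro hw _
      rw [sc_cons, wt_cons, wt_cons]
      by_cases hc : c = 0
      · rw [hc, mul_zero]
        have hv : v ≠ [] := fun h => hw.2 h hc
        have := ih hw.1 hv
        linarith
      · rw [hωa c hc]
        have := hle v
        linarith
  intro w
  induction w with
  | nil =>
    intro _ _
    refine ⟨0, Submodule.zero_mem _, fun s => ?_⟩
    rw [List.map_nil, JJ, hw_nil, Pi.zero_apply, add_zero]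
  | cons c v ih =>
    intro hadm hpos
    obtain ⟨m, hm, hJ⟩ := ih hadm.tail fun d hd => hpos d (List.mem_cons_of_mem _ hd)
    have hJc : Continuous (JJ (v.map io)) := by
      have : JJ (v.map io) = fun s => hw v s + m s := funext hJ
      rw [this]
      exact (hw_continuous v).add (MM_continuous hm)
    have hint : ∀ s : ℝ, IntervalIntegrable (fun t : ℝ => Complex.exp (io c * Complex.exp t) * JJ (v.map io) t)
        MeasureTheory.volume 0 s := fun s => (Continuous.intervalIntegrable (by fun_prop) _ _)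
    -- it is enough to have an antiderivative
    suffices H : ∃ m' ∈ MM S ω a (wt ω (sc a (c :: v))), hw (c :: v) 0 + m' 0 = 0 ∧
        ∀ t : ℝ, HasDerivAt (fun s => hw (c :: v) s + m' s) (Complex.exp (io c * Complex.exp t) * JJ (v.map io) t) t by
      obtain ⟨m', hm', h0, hd⟩ := H
      refine ⟨m', hm', fun s => ?_⟩
      rw [List.map_cons, JJ, intervalIntegral.integral_eq_sub_of_hasDerivAt (fun t _ => hd t) (hint s), h0, sub_zero]
    have hconst : (fun _ => uv (c :: v) : ℝ → ℂ) ∈ MM S ω a (wt ω (sc a (c :: v))) :=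
      const_mem (hlt _ hadm.1 (by simp)) (uv_mem ω hadm)
    by_cases hc : c = 0
    · subst hc
      have hv : v ≠ [] := fun h => hadm.1.2 h rfl
      have hw0 : wt ω (sc a (0 :: v)) = wt ω (sc a v) := by rw [sc_cons, mul_zero, wt_cons, hω0, zero_add]
      obtain ⟨F, hF, hF0, hF'⟩ := anti hω0 hle hm
      refine ⟨F - fun _ => uv (0 :: v), ?_, ?_, fun t => ?_⟩
      · rw [hw0] at hconst ⊢
        exact Submodule.sub_mem _ hF hconst
      · rw [Pi.sub_apply, hF0, hw_zero]; ring
      · refine HasDerivAt.congr_deriv ((hw_deriv hadm.1 t).add ((hF' t).sub_const _)) ?_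
        rw [ph_zero, hJ, map_zero, zero_mul, Complex.exp_zero]
        ring
    · have hwc : wt ω (sc a (c :: v)) = ω (a * c) + wt ω (sc a v) := by rw [sc_cons, wt_cons]
      have hac : 0 < ω (a * c) := hpos c (by simp) hc
      have hmem1 : m ∈ MM S ω a (wt ω (sc a (c :: v))) := MM_mono (by rw [hwc]; linarith) hm
      have hmem2 : hw v ∈ MM S ω a (wt ω (sc a (c :: v))) := by
        have e : hw v = gn [] v 0 := by
          funext s; rw [gn, pow_zero, mul_one, uv_nil, one_mul]
        rw [e]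
        refine gn_mem (AL.nil S) hadm.tail ?_
        rw [hwc, wt_nil]; linarith
      obtain ⟨F, hF, hF0, hF'⟩ := anti hω0 hle (Submodule.add_mem _ hmem1 hmem2)
      obtain ⟨G, hG, hG0, hG'⟩ := anti_ph (θ' := wt ω (sc a (c :: v))) hω0 hle hc ((hadm.2 c (by simp)).resolve_left hc) (by rw [hwc]; linarith) hm
      refine ⟨F + G - fun _ => uv (c :: v), Submodule.sub_mem _ (Submodule.add_mem _ hF hG) hconst, ?_, fun t => ?_⟩
      · rw [Pi.sub_apply, Pi.add_apply, hF0, hG0, hw_zero]; ring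
      · refine HasDerivAt.congr_deriv ((hw_deriv hadm.1 t).add (((hF' t).add (hG' t)).sub_const _)) ?_
        rw [ph, if_neg hc, hJ, Pi.add_apply]
        ring

/-- the span of the values of weight less than `θ` -/
noncomputable def Lo (S : Set Qb) (ω : Qb → ℝ) (θ : ℝ) : Submodule (EL S) ℂ :=
  Submodule.span (EL S) {z | ∃ w : List Qb, AL S w ∧ wt ω w < θ ∧ z = uv w}

theorem Vw_le {θ θ' : ℝ} (h : θ' < θ) : Vw S ω θ' ≤ Lo S ω θ := by
  refine Submodule.span_mono ?_
  rintro _ ⟨w, hw, rfl, rfl⟩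
  exact ⟨w, hw, h, rfl⟩

theorem sc_AL (ha : a ≠ 0) (haS : ∀ c ∈ S, a * c ∈ S) {w : List Qb} (hw : AL S w) : AL S (sc a w) := by
  refine ⟨sc_adm ha hw.1, fun d hd => ?_⟩
  obtain ⟨c, hc, rfl⟩ := List.mem_map.1 hd
  rcases hw.2 c hc with h | h
  · left; rw [h, mul_zero]
  · right; exact haS c h

theorem MM_at {b : ℝ} (ha : a ≠ 0) (haS : ∀ c ∈ S, a * c ∈ S) (hab : io a = Complex.exp b) (hbE : (b : ℂ) ∈ EL S) {θ : ℝ} {f : ℝ → ℂ}
    (hf : f ∈ MM S ω a θ) : f b ∈ Lo S ω θ := by
  refine Submodule.span_induction (p := fun f _ => f b ∈ Lo S ω θ) ?_ ?_ ?_ ?_ hf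
  · rintro _ ⟨x, w, j, hx, hw, h, rfl⟩
    have h1 := Vw_le h (uv_mul_mem ω hx (sc_AL ha haS hw))
    have h2 := Submodule.smul_mem _ ((⟨(b : ℂ), hbE⟩ : EL S) ^ j) h1
    rw [gn, hw_at ha hab]
    have e : uv x * (b : ℂ) ^ j * uv (sc a w) = ((⟨(b : ℂ), hbE⟩ : EL S) ^ j) • (uv x * uv (sc a w)) := by
      rw [Algebra.smul_def, map_pow]
      show _ = (b : ℂ) ^ j * _
      ring
    rw [e]
    exact h2
  · exact Submodule.zero_mem _
  · intro x y _ _ hx hy; exact Submodule.add_mem _ hx hy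
  · intro c x _ hx; exact Submodule.smul_mem _ c hx

end

end Pool.Agent.H18.It
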