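import Pool.Agent.H18.It.LI

/-!
# Weights of words
-/

set_option autoImplicit false
set_option linter.unusedSectionVars false

open PowerSeries Set

namespace Pool.Agent.H18.It

open Pool.Agent.N902.EW

/-- the weight of a word -/
noncomputable def wt (ω : Qb → ℝ) (w : List Qb) : ℝ := (w.map ω).sum

theorem wt_nil (ω : Qb → ℝ) : wt ω [] = 0 := rfl

theorem wt_cons (ω : Qb → ℝ) (a : Qb) (v : List Qb) : wt ω (a :: v) = ω a + wt ω v := by
  rw [wt, List.map_cons, List.sum_cons]; rfl

section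

variable (S : Set Qb) (ω : Qb → ℝ)

/-- the span of the functions of the nonempty admissible words of weight `θ` -/
noncomputable def SPw (θ : ℝ) : Submodule Qb (Qb : Type)⟦X⟧ :=
  Submodule.span Qb {f | ∃ w : List Qb, AL S w ∧ w ≠ [] ∧ wt ω w = θ ∧ f = U w}

variable {S}

theorem ig_mul_memw {a : Qb} (ha : a = 0 ∨ a ∈ S) {θ : ℝ} {f : (Qb : Type)⟦X⟧} (hf : f ∈ SPw S ω θ) :
    ig (lt a * f) ∈ SPw S ω (ω a + θ) := by
  refine Submodule.span_induction (p := fun f _ => ig (lt a * f) ∈ SPw S ω (ω a + θ)) ?_ ?_ ?_ ?_ hf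
  · rintro _ ⟨w, hw, hne, rfl, rfl⟩
    rw [← U_cons]
    refine Submodule.subset_span ⟨_, ⟨adm_cons hw.1 hne, fun d hd => ?_⟩, by simp, wt_cons _ _ _, rfl⟩
    rcases List.mem_cons.1 hd with h | h
    · rw [h]; exact ha
    · exact hw.2 d h
  · rw [mul_zero]
    have : ig (0 : (Qb : Type)⟦X⟧) = 0 := by ext n; rw [coeff_ig]; simp
    rw [this]
    exact Submodule.zero_mem _
  · intro x y _ _ hx hy
    rw [mul_add, ig_add]
    exact Submodule.add_mem _ hx hy
  · intro c x _ hx
    rw [mul_smul_comm, ig_smul]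
    exact Submodule.smul_mem _ _ hx

theorem U_mul_Uw : ∀ (n : ℕ) (u v : List Qb), u.length + v.length ≤ n → AL S u → AL S v →
    (u ≠ [] ∨ v ≠ []) → U u * U v ∈ SPw S ω (wt ω u + wt ω v) := by
  intro n
  induction n with
  | zero =>
    intro u v hn _ _ h
    have h1 : u = [] := List.length_eq_zero_iff.1 (by omega)
    have h2 : v = [] := List.length_eq_zero_iff.1 (by omega)
    rcases h with h | h
    · exact absurd h1 h
    · exact absurd h2 h
  | succ n ih =>
    intro u v hn hu hv h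
    rcases u with _ | ⟨a, u⟩
    · rw [U_nil, one_mul, wt_nil, zero_add]
      exact Submodule.subset_span ⟨v, hv, h.resolve_left (fun h' => h' rfl), rfl, rfl⟩
    · rcases v with _ | ⟨b, v⟩
      · rw [U_nil, mul_one, wt_nil, add_zero]
        exact Submodule.subset_span ⟨_, hu, by simp, rfl, rfl⟩
      · have h0 : coeff 0 (U (a :: u) * U (b :: v)) = 0 := by
          rw [coeff_zero_eq_constantCoeff_apply, map_mul, ← coeff_zero_eq_constantCoeff_apply,
            coeff_zero_U (by simp), zero_mul]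
        have h1 : U (a :: u) * U (b :: v) = ig (lt a * (U u * U (b :: v))) + ig (lt b * (U (a :: u) * U v)) := by
          rw [← ig_th h0, th_mul, th_U_cons hu.1, th_U_cons hv.1, ig_add]
          congr 2
          · ring
          · ring
        rw [h1]
        simp only [List.length_cons] at hn
        refine Submodule.add_mem _ ?_ ?_
        · have e : wt ω (a :: u) + wt ω (b :: v) = ω a + (wt ω u + wt ω (b :: v)) := by rw [wt_cons ω a u]; ring
          rw [e]
          refine ig_mul_memw ω (hu.2 a (by simp)) ?_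
          exact ih u (b :: v) (by simp only [List.length_cons]; omega) hu.tail hv (Or.inr (by simp))
        · have e : wt ω (a :: u) + wt ω (b :: v) = ω b + (wt ω (a :: u) + wt ω v) := by rw [wt_cons ω b v]; ring
          rw [e]
          refine ig_mul_memw ω (hv.2 b (by simp)) ?_
          exact ih (a :: u) v (by simp only [List.length_cons]; omega) hu hv.tail (Or.inl (by simp))

variable (S)

/-- the span of the values of the admissible words of weight `θ` -/
noncomputable def Vw (θ : ℝ) : Submodule (EL S) ℂ :=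
  Submodule.span (EL S) {z | ∃ w : List Qb, AL S w ∧ wt ω w = θ ∧ z = uv w}

variable {S}

theorem uv_mem {w : List Qb} (hw : AL S w) : uv w ∈ Vw S ω (wt ω w) :=
  Submodule.subset_span ⟨w, hw, rfl, rfl⟩

theorem io_mem_EL (c : Qb) : io c ∈ EL S :=
  IntermediateField.subset_adjoin _ _ (Or.inl (Or.inl (c.2.isAlgebraic)))

theorem evk_memw {θ : ℝ} {f : (Qb : Type)⟦X⟧} (hf : f ∈ SPw S ω θ) :
    EFK io f ∧ evk io f ∈ Vw S ω θ := by
  refine Submodule.span_induction (p := fun f _ => EFK io f ∧ evk io f ∈ Vw S ω θ) ?_ ?_ ?_ ?_ hf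
  · rintro _ ⟨w, hw, hne, rfl, rfl⟩
    exact ⟨EFK.U w, uv_mem ω hw⟩
  · exact ⟨EFK.zero, by rw [evk_zero]; exact Submodule.zero_mem _⟩
  · rintro x y _ _ ⟨hx, hx'⟩ ⟨hy, hy'⟩
    exact ⟨hx.add hy, by rw [evk_add hx hy]; exact Submodule.add_mem _ hx' hy'⟩
  · rintro c x _ ⟨hx, hx'⟩
    refine ⟨hx.smul c, ?_⟩
    rw [evk_smul]
    exact Submodule.smul_mem _ (⟨io c, io_mem_EL c⟩ : EL S) hx'

theorem uv_nil : uv [] = 1 := by rw [uv, U_nil, evk_one]

/-- the products of the values -/
theorem uv_mul_mem {u v : List Qb} (hu : AL S u) (hv : AL S v) :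
    uv u * uv v ∈ Vw S ω (wt ω u + wt ω v) := by
  by_cases h : u ≠ [] ∨ v ≠ []
  · have h1 := (evk_memw ω (U_mul_Uw ω _ u v le_rfl hu hv h)).2
    rwa [evk_mul (EFK.U u) (EFK.U v)] at h1
  · push Not at h
    rw [h.1, h.2, uv_nil, wt_nil, add_zero, one_mul]
    have := uv_mem ω (AL.nil S)
    rwa [uv_nil, wt_nil] at this

end

end Pool.Agent.H18.It
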