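import Pool.Agent.H18.It.Val
import Pool.Agent.H18.It.Wt

/-!
# The module of functions and its antiderivatives
-/

set_option autoImplicit false
set_option linter.unusedSectionVars false

open PowerSeries Set

namespace Pool.Agent.H18.It

open Pool.Agent.N902.EW Pool.Agent.H18.Bes

/-- the functions `u_x s^j h_w(s)` -/
noncomputable def gn (x w : List Qb) (j : ℕ) (s : ℝ) : ℂ := uv x * (s : ℂ) ^ j * hw w s

section

variable (S : Set Qb) (ω : Qb → ℝ) (a : Qb)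

/-- the module of the functions of weight less than `θ` -/
noncomputable def MM (θ : ℝ) : Submodule (EL S) (ℝ → ℂ) :=
  Submodule.span (EL S) {f | ∃ (x w : List Qb) (j : ℕ), AL S x ∧ AL S w ∧ wt ω x + wt ω (sc a w) < θ ∧ f = gn x w j}

variable {S ω a}

theorem gn_mem {θ : ℝ} {x w : List Qb} {j : ℕ} (hx : AL S x) (hw : AL S w) (h : wt ω x + wt ω (sc a w) < θ) :
    gn x w j ∈ MM S ω a θ := Submodule.subset_span ⟨x, w, j, hx, hw, h, rfl⟩

theorem MM_mono {θ θ' : ℝ} (h : θ ≤ θ') : MM S ω a θ ≤ MM S ω a θ' := by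
  refine Submodule.span_mono ?_
  rintro _ ⟨x, w, j, hx, hw, h1, rfl⟩
  exact ⟨x, w, j, hx, hw, h1.trans_le h, rfl⟩

theorem sc_nil : sc a [] = [] := rfl

theorem sc_cons (c : Qb) (w : List Qb) : sc a (c :: w) = (a * c) :: sc a w := rfl

/-- constants -/
theorem const_mem {θ' θ : ℝ} (h : θ' < θ) {z : ℂ} (hz : z ∈ Vw S ω θ') : (fun _ => z : ℝ → ℂ) ∈ MM S ω a θ := by
  refine Submodule.span_induction (p := fun z _ => (fun _ => z : ℝ → ℂ) ∈ MM S ω a θ) ?_ ?_ ?_ ?_ hz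
  · rintro _ ⟨w, hw, h1, rfl⟩
    have e : (fun _ => uv w : ℝ → ℂ) = gn w [] 0 := by
      funext s; rw [gn, pow_zero, mul_one, hw_nil, mul_one]
    rw [e]
    refine gn_mem hw (AL.nil S) ?_
    rw [sc_nil, wt_nil, add_zero, h1]
    exact h
  · exact Submodule.zero_mem _
  · intro x y _ _ hx hy; exact Submodule.add_mem _ hx hy
  · intro c x _ hx; exact Submodule.smul_mem _ c hx

theorem gn_continuous (x w : List Qb) (j : ℕ) : Continuous (gn x w j) :=
  (continuous_const.mul (Complex.continuous_ofReal.pow j)).mul (hw_continuous w)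

theorem MM_continuous {θ : ℝ} {f : ℝ → ℂ} (hf : f ∈ MM S ω a θ) : Continuous f := by
  refine Submodule.span_induction (p := fun f _ => Continuous f) ?_ ?_ ?_ ?_ hf
  · rintro _ ⟨x, w, j, _, _, _, rfl⟩
    exact gn_continuous x w j
  · exact continuous_const
  · intro x y _ _ hx hy; exact hx.add hy
  · intro c x _ hx
    exact continuous_const.mul hx

theorem ofReal_deriv (s : ℝ) : HasDerivAt (fun s : ℝ => (s : ℂ)) 1 s := Complex.ofRealCLM.hasDerivAt

theorem gn_deriv {c : Qb} {w : List Qb} (hcw : Adm (c :: w)) (x : List Qb) (j : ℕ) (s : ℝ) :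
    HasDerivAt (gn x (c :: w) j) (uv x * ((j : ℂ) * (s : ℂ) ^ (j - 1)) * hw (c :: w) s + ph c s * gn x w j s) s := by
  have h1 := (((ofReal_deriv s).pow j).const_mul (uv x)).mul (hw_deriv hcw s)
  refine (HasDerivAt.congr_deriv h1 ?_ : HasDerivAt (fun s : ℝ => uv x * (s : ℂ) ^ j * hw (c :: w) s) _ s)
  rw [gn, mul_one]
  simp only [Pi.pow_apply]
  ring

theorem ph_zero (s : ℝ) : ph 0 s = 1 := if_pos rfl

/-- the step -/
theorem step {θ : ℝ} {c : Qb} {x w : List Qb} (hx : AL S x) (hcw : AL S (c :: w))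
    (h1 : wt ω x + wt ω (c :: w) < θ) (h2 : wt ω x + wt ω (sc a (c :: w)) < θ) (j : ℕ)
    (H : ∀ i < j, ∃ F ∈ MM S ω a θ, F 0 = 0 ∧ ∀ s, HasDerivAt F (gn x (c :: w) i s) s) :
    ∃ F ∈ MM S ω a θ, F 0 = 0 ∧ ∀ s, HasDerivAt F (ph c s * gn x w j s) s := by
  rcases j with _ | j
  · refine ⟨gn x (c :: w) 0 - fun _ => uv x * uv (c :: w), ?_, ?_, fun s => ?_⟩
    · exact Submodule.sub_mem _ (gn_mem hx hcw h2) (const_mem h1 (uv_mul_mem ω hx hcw))
    · rw [Pi.sub_apply, gn, hw_zero, pow_zero, mul_one, sub_self]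
    · refine (HasDerivAt.congr_deriv ((gn_deriv hcw.1 x 0 s).sub_const (uv x * uv (c :: w))) ?_)
      simp
  · obtain ⟨F, hF, hF0, hF'⟩ := H j (Nat.lt_succ_self j)
    refine ⟨gn x (c :: w) (j + 1) - ((j + 1 : ℕ) : EL S) • F, ?_, ?_, fun s => ?_⟩
    · exact Submodule.sub_mem _ (gn_mem hx hcw h2) (Submodule.smul_mem _ _ hF)
    · rw [Pi.sub_apply, Pi.smul_apply, hF0, smul_zero, gn]
      simp
    · refine (HasDerivAt.congr_deriv ((gn_deriv hcw.1 x (j + 1) s).sub ((hF' s).const_smul ((j + 1 : ℕ) : EL S))) ?_)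
      rw [Nat.add_sub_cancel, gn, gn, Algebra.smul_def, map_natCast]
      ring

/-- antiderivatives of the generators -/
theorem anti_gn {θ : ℝ} (hω0 : ω 0 = 0) (hle : ∀ w : List Qb, wt ω w ≤ wt ω (sc a w)) (j : ℕ) : ∀ (x w : List Qb), AL S x → AL S w →
    wt ω x + wt ω (sc a w) < θ → ∃ F ∈ MM S ω a θ, F 0 = 0 ∧ ∀ s, HasDerivAt F (gn x w j s) s := by
  induction j using Nat.strong_induction_on with
  | _ j ih =>
    intro x w hx hw h
    by_cases hne : w = []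
    · subst hne
      refine ⟨((j + 1 : ℕ) : EL S)⁻¹ • gn x [] (j + 1), Submodule.smul_mem _ _ (gn_mem hx (AL.nil S) h), ?_, fun s => ?_⟩
      · rw [Pi.smul_apply, gn]
        simp
      · have h1 := (((ofReal_deriv s).pow (j + 1)).const_mul (uv x)).const_smul (((j + 1 : ℕ) : EL S)⁻¹)
        have e : ((((j + 1 : ℕ) : EL S)⁻¹ • gn x [] (j + 1)) : ℝ → ℂ) =
            ((((j + 1 : ℕ) : EL S)⁻¹ • fun s : ℝ => uv x * (s : ℂ) ^ (j + 1)) : ℝ → ℂ) := by
          funext s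
          rw [Pi.smul_apply, Pi.smul_apply, gn, hw_nil, mul_one]
        rw [e]
        refine HasDerivAt.congr_deriv h1 ?_
        have h3 : ((j : ℂ) + 1) ≠ 0 := by exact_mod_cast Nat.succ_ne_zero j
        rw [gn, hw_nil, mul_one, Algebra.smul_def, map_inv₀, map_natCast]
        push_cast
        field_simp
    · have h0 : wt ω (0 :: w) = wt ω w := by rw [wt_cons, hω0, zero_add]
      have h0' : wt ω (sc a (0 :: w)) = wt ω (sc a w) := by rw [sc_cons, mul_zero, wt_cons, hω0, zero_add]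
      have hadm : AL S (0 :: w) := hw.cons_zero hne
      obtain ⟨F, hF, hF0, hF'⟩ := step (θ := θ) (c := 0) hx hadm
        (by rw [h0]; exact (add_le_add_right (hle w) _).trans_lt h) (by rw [h0']; exact h) j
        (fun i hi => ih i hi x (0 :: w) hx hadm (by rw [h0']; exact h))
      refine ⟨F, hF, hF0, fun s => ?_⟩
      have := hF' s
      rwa [ph_zero, one_mul] at this

theorem anti {θ : ℝ} (hω0 : ω 0 = 0) (hle : ∀ w : List Qb, wt ω w ≤ wt ω (sc a w)) {f : ℝ → ℂ} (hf : f ∈ MM S ω a θ) :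
    ∃ F ∈ MM S ω a θ, F 0 = 0 ∧ ∀ s, HasDerivAt F (f s) s := by
  refine Submodule.span_induction (p := fun f _ => ∃ F ∈ MM S ω a θ, F 0 = 0 ∧ ∀ s, HasDerivAt F (f s) s) ?_ ?_ ?_ ?_ hf
  · rintro _ ⟨x, w, j, hx, hw, h, rfl⟩
    exact anti_gn hω0 hle j x w hx hw h
  · exact ⟨0, Submodule.zero_mem _, rfl, fun s => hasDerivAt_const s (0 : ℂ)⟩
  · rintro f g _ _ ⟨F, hF, hF0, hF'⟩ ⟨G, hG, hG0, hG'⟩
    exact ⟨F + G, Submodule.add_mem _ hF hG, by rw [Pi.add_apply, hF0, hG0, add_zero], fun s => (hF' s).add (hG' s)⟩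
  · rintro c f _ ⟨F, hF, hF0, hF'⟩
    exact ⟨c • F, Submodule.smul_mem _ c hF, by rw [Pi.smul_apply, hF0, smul_zero], fun s => (hF' s).const_smul c⟩

theorem anti_ph {θ θ' : ℝ} (hω0 : ω 0 = 0) (hle : ∀ w : List Qb, wt ω w ≤ wt ω (sc a w)) {c : Qb} (hc : c ≠ 0) (hcS : c ∈ S)
    (hθ : θ + ω (a * c) ≤ θ') {f : ℝ → ℂ} (hf : f ∈ MM S ω a θ) :
    ∃ F ∈ MM S ω a θ', F 0 = 0 ∧ ∀ s, HasDerivAt F (ph c s * f s) s := by
  refine Submodule.span_induction (p := fun f _ => ∃ F ∈ MM S ω a θ', F 0 = 0 ∧ ∀ s, HasDerivAt F (ph c s * f s) s) ?_ ?_ ?_ ?_ hf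
  · rintro _ ⟨x, w, j, hx, hw, h, rfl⟩
    have hadm : AL S (c :: w) := hw.cons hcS hc
    have h2 : wt ω x + wt ω (sc a (c :: w)) < θ' := by
      rw [sc_cons, wt_cons]
      linarith
    have h1 : wt ω x + wt ω (c :: w) < θ' := by
      have := hle (c :: w)
      linarith
    exact step hx hadm h1 h2 j fun i _ => anti_gn hω0 hle i x (c :: w) hx hadm h2
  · exact ⟨0, Submodule.zero_mem _, rfl, fun s => by
      rw [Pi.zero_apply, mul_zero]
      exact hasDerivAt_const s (0 : ℂ)⟩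
  · rintro f g _ _ ⟨F, hF, hF0, hF'⟩ ⟨G, hG, hG0, hG'⟩
    exact ⟨F + G, Submodule.add_mem _ hF hG, by rw [Pi.add_apply, hF0, hG0, add_zero], fun s => by
      rw [Pi.add_apply, mul_add]
      exact (hF' s).add (hG' s)⟩
  · rintro d f _ ⟨F, hF, hF0, hF'⟩
    exact ⟨d • F, Submodule.smul_mem _ d hF, by rw [Pi.smul_apply, hF0, smul_zero], fun s => by
      rw [Pi.smul_apply, mul_smul_comm]
      exact (hF' s).const_smul d⟩

end

end Pool.Agent.H18.It
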