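import Pool.Agent.H18.It.LI
import Pool.Agent.H18.Bes.Ser

/-!
# The values of the words as functions on the real line
-/

set_option autoImplicit false
set_option linter.unusedSectionVars false

open PowerSeries Set

namespace Pool.Agent.H18.It

open Pool.Agent.N902.EW Pool.Agent.H18.Bes

/-- the value of a series -/
noncomputable def vl (f : (Qb : Type)⟦X⟧) (z : ℂ) : ℂ := sr (fun n => io (coeff n f)) z

theorem ent_of {f : (Qb : Type)⟦X⟧} (hf : EFK io f) : Ent (fun n => io (coeff n f)) := by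
  obtain ⟨C, hC, h, _⟩ := hf
  intro r hr
  have hs : Summable (fun m : ℕ => C * ((C * r) ^ m / (m.factorial : ℝ))) :=
    (Real.summable_pow_div_factorial (C * r)).mul_left C
  refine Summable.of_nonneg_of_le (fun m => by positivity) (fun m => ?_) hs
  have h1 := h m
  rw [ck, map_mul, map_natCast, norm_mul, Complex.norm_natCast] at h1
  have h2 : ‖io (coeff m f)‖ ≤ C ^ (m + 1) / (m.factorial : ℝ) := by
    rw [le_div_iff₀ (by positivity)]
    linarith
  calc ‖io (coeff m f)‖ * r ^ m ≤ C ^ (m + 1) / (m.factorial : ℝ) * r ^ m :=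
        mul_le_mul_of_nonneg_right h2 (by positivity)
    _ = C * ((C * r) ^ m / (m.factorial : ℝ)) := by rw [mul_pow]; ring

theorem vl_summable {f : (Qb : Type)⟦X⟧} (hf : EFK io f) (z : ℂ) : Summable fun n => ‖io (coeff n f) * z ^ n‖ := by
  refine (ent_of hf ‖z‖ (norm_nonneg _)).congr fun n => ?_
  rw [norm_mul, norm_pow]

theorem vl_mul {f g : (Qb : Type)⟦X⟧} (hf : EFK io f) (hg : EFK io g) (z : ℂ) : vl (f * g) z = vl f z * vl g z := by
  rw [vl, vl, vl, sr, sr, sr, tsum_mul_tsum_eq_tsum_sum_antidiagonal_of_summable_norm (vl_summable hf z) (vl_summable hg z)]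
  refine tsum_congr fun m => ?_
  rw [coeff_mul, map_sum, Finset.sum_mul]
  refine Finset.sum_congr rfl fun p hp => ?_
  rw [Finset.HasAntidiagonal.mem_antidiagonal] at hp
  rw [map_mul, ← hp, pow_add]
  ring

theorem vl_one (z : ℂ) : vl 1 z = 1 := by
  rw [vl, sr, tsum_eq_single 0]
  · simp
  · intro n hn
    rw [coeff_one, if_neg hn, map_zero, zero_mul]

theorem vl_ex (a : Qb) (z : ℂ) : vl (ex a) z = Complex.exp (io a * z) := by
  rw [vl, sr, Complex.exp_eq_exp_ℂ, NormedSpace.exp_eq_tsum_div]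
  refine tsum_congr fun n => ?_
  rw [coeff_ex, map_div₀, map_pow, map_natCast, mul_pow]
  ring

theorem vl_sub {f g : (Qb : Type)⟦X⟧} (hf : EFK io f) (hg : EFK io g) (z : ℂ) : vl (f - g) z = vl f z - vl g z := by
  rw [vl, vl, vl, sr, sr, sr, ← ((vl_summable hf z).of_norm).tsum_sub (vl_summable hg z).of_norm]
  refine tsum_congr fun n => ?_
  rw [map_sub, map_sub, sub_mul]

/-- the multiplier of the letter `a` -/
noncomputable def ph (a : Qb) (s : ℝ) : ℂ := if a = 0 then 1 else Complex.exp (io a * Complex.exp s) - 1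

theorem vl_lt (a : Qb) (s : ℝ) : vl (lt a) (Complex.exp s) = ph a s := by
  by_cases h : a = 0
  · rw [h, lt_zero, vl_one, ph, if_pos rfl]
  · rw [lt_ne h, vl_sub (EFK.ex a) EFK.one, vl_ex, vl_one, ph, if_neg h]

/-- the function of the word -/
noncomputable def hw (w : List Qb) (s : ℝ) : ℂ := vl (U w) (Complex.exp s)

theorem hw_nil (s : ℝ) : hw [] s = 1 := by rw [hw, U_nil, vl_one]

theorem hw_zero (w : List Qb) : hw w 0 = uv w := by
  rw [hw, vl, sr, uv, evk]
  simp

theorem hw_deriv {a : Qb} {v : List Qb} (h : Adm (a :: v)) (s : ℝ) :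
    HasDerivAt (hw (a :: v)) (ph a s * hw v s) s := by
  have h1 := (sr_hasDerivAt (ent_of (EFK.U (φ := io) (a :: v))) (Complex.exp s)).comp (s : ℂ)
    (Complex.hasDerivAt_exp (s : ℂ))
  have h2 := h1.comp_ofReal
  have h3 : sr (Bes.dc fun n => io (coeff n (U (a :: v)))) (Complex.exp s) * Complex.exp s = ph a s * hw v s := by
    rw [mul_comm, mul_sr_dc (ent_of (EFK.U (φ := io) (a :: v)))]
    have h4 : (fun n : ℕ => (n : ℂ) * io (coeff n (U (a :: v)))) = fun n => io (coeff n (lt a * U v)) := by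
      funext n
      rw [← th_U_cons h, coeff_th, map_mul, map_natCast]
    rw [h4]
    show vl (lt a * U v) (Complex.exp s) = _
    rw [vl_mul (EFK.lt a) (EFK.U v), vl_lt]
    rfl
  rw [h3] at h2
  exact h2

theorem hw_continuous (w : List Qb) : Continuous (hw w) := by
  have h1 : Continuous (sr fun n => io (coeff n (U w))) :=
    continuous_iff_continuousAt.2 fun z => (sr_hasDerivAt (ent_of (EFK.U (φ := io) w)) z).continuousAt
  exact h1.comp (Complex.continuous_exp.comp Complex.continuous_ofReal)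

/-! ### Scaling -/

theorem rescale_ex (a c : Qb) : rescale a (ex c) = ex (a * c) := by
  ext n
  rw [coeff_rescale, coeff_ex, coeff_ex, mul_pow, mul_div_assoc]

theorem rescale_lt {a : Qb} (ha : a ≠ 0) (c : Qb) : rescale a (lt c) = lt (a * c) := by
  by_cases h : c = 0
  · rw [h, lt_zero, mul_zero, lt_zero, map_one]
  · rw [lt_ne h, lt_ne (mul_ne_zero ha h), map_sub, map_one, rescale_ex]

theorem rescale_ig (a : Qb) (f : (Qb : Type)⟦X⟧) : rescale a (ig f) = ig (rescale a f) := by
  ext n
  rw [coeff_rescale, coeff_ig, coeff_ig, coeff_rescale, mul_div_assoc]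

/-- the scaled word -/
noncomputable def sc (a : Qb) (w : List Qb) : List Qb := w.map (fun c => a * c)

theorem rescale_U {a : Qb} (ha : a ≠ 0) (w : List Qb) : rescale a (U w) = U (sc a w) := by
  induction w with
  | nil => rw [sc, List.map_nil, U_nil, map_one]
  | cons c v ih =>
    rw [sc, List.map_cons, U_cons, U_cons, rescale_ig, map_mul, rescale_lt ha, ih]
    rfl

theorem sc_adm {a : Qb} (ha : a ≠ 0) {w : List Qb} (h : Adm w) : Adm (sc a w) := by
  induction w with
  | nil => trivial
  | cons c v ih =>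
    refine ⟨ih h.1, fun h' => ?_⟩
    exact mul_ne_zero ha (h.2 (List.map_eq_nil_iff.1 h'))

theorem hw_at {a : Qb} (ha : a ≠ 0) {b : ℝ} (hb : io a = Complex.exp b) (w : List Qb) : hw w b = uv (sc a w) := by
  rw [hw, vl, sr, uv, evk, ← rescale_U ha]
  refine tsum_congr fun n => ?_
  rw [coeff_rescale, map_mul, map_pow, hb, mul_comm]

end Pool.Agent.H18.It
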